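import Pool.Agent.H482R3.EB.Stm

set_option autoImplicit false

/-! Project EB, task RENUM: renumbering the generators (helper48). -/

namespace Pool.Agent.H48R2.EB

open Pool.Agent.H482R3.EB
open Pool.Agent.H482R3.EA (W ev cV cW)

theorem RENUM_alt_map {S T : Type} (f : S → T) (n : ℕ) :
    ∀ s t : S, (alt s t n).map f = alt (f s) (f t) n := by
  induction n with
  | zero => intro s t; rfl
  | succ n ih =>
    intro s t
    show f s :: (alt t s n).map f = f s :: alt (f t) (f s) n
    rw [ih]

theorem RENUM_alt_even {G : Type} [Group G] (x y : G) (k : ℕ) :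
    (alt x y (2 * k)).prod = (x * y) ^ k := by
  induction k with
  | zero => simp [alt]
  | succ k ih =>
    have h : 2 * (k + 1) = 2 * k + 1 + 1 := by ring
    rw [h]
    show (x :: y :: alt x y (2 * k)).prod = _
    rw [List.prod_cons, List.prod_cons, ih, pow_succ', mul_assoc]

theorem RENUM_ev {S T G : Type} [Group G] (f : T → G) (g : S → T) (u : W S) :
    ev f (u.map (fun x => (g x.1, x.2))) = ev (fun s => f (g s)) u := by
  unfold ev
  rw [List.map_map]
  rfl

theorem RENUM_half {k : ℕ} (h : Even k) : 2 * (k / 2) = k := by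
  obtain ⟨r, rfl⟩ := h
  omega

theorem t_RENUM (h1 : S_LIFTR) (h2 : S_LIFTJ) (h3 : S_RELR) : S_RENUM := by
  intro a b n m e hs hev u
  obtain ⟨hR, hJ⟩ := h3
  obtain ⟨hJ1, hJ2, hJ3⟩ := hJ (Fin a) (Fin b) (jn m e)
  -- the cross relation in both orders
  have hc : ∀ i j, m (e (.inl i)) (e (.inr j)) ≠ 0 →
      (alt (gJ (jn m e) (.inl i)) (gJ (jn m e) (.inr j)) (m (e (.inl i)) (e (.inr j)))).prod =
      (alt (gJ (jn m e) (.inr j)) (gJ (jn m e) (.inl i)) (m (e (.inl i)) (e (.inr j)))).prod := by
    intro i j h0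
    have he := RENUM_half (hev i j)
    have h4 := hJ3 i j (by
      show m (e (.inl i)) (e (.inr j)) / 2 ≠ 0
      omega)
    rw [← he, RENUM_alt_even, RENUM_alt_even]
    exact h4
  obtain ⟨φ, -, hφ⟩ := h1 (Fin n) (AJ (jn m e)) inferInstance m
    (fun s => gJ (jn m e) (e.symm s)) (by
    intro s t hst h0
    rw [RENUM_alt_map, RENUM_alt_map]
    obtain ⟨x, rfl⟩ := e.surjective s
    obtain ⟨y, rfl⟩ := e.surjective t
    have hxy : x ≠ y := fun h => hst (by rw [h])
    simp only [Equiv.symm_apply_apply]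
    rcases x with i | i <;> rcases y with j | j
    · have h4 := hJ1 i j (fun h => hxy (by rw [h])) h0
      rw [RENUM_alt_map, RENUM_alt_map] at h4
      exact h4
    · exact hc i j h0
    · rw [hs] at h0 ⊢
      exact (hc j i h0).symm
    · have h4 := hJ2 i j (fun h => hxy (by rw [h])) h0
      rw [RENUM_alt_map, RENUM_alt_map] at h4
      exact h4)
  obtain ⟨ψ, -, hψ⟩ := h2 (Fin a) (Fin b) (AR m) inferInstance (jn m e)
    (fun x => gR m (e x)) (by
      intro s t hst h0
      have h4 := hR (Fin n) m (e (.inl s)) (e (.inl t))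
        (fun h => hst (Sum.inl_injective (e.injective h))) h0
      rw [RENUM_alt_map, RENUM_alt_map] at h4 ⊢
      exact h4) (by
      intro s t hst h0
      have h4 := hR (Fin n) m (e (.inr s)) (e (.inr t))
        (fun h => hst (Sum.inr_injective (e.injective h))) h0
      rw [RENUM_alt_map, RENUM_alt_map] at h4 ⊢
      exact h4) (by
      intro v w h0
      have he := RENUM_half (hev v w)
      have h00 : m (e (.inl v)) (e (.inr w)) / 2 ≠ 0 := h0
      have h4 := hR (Fin n) m (e (.inl v)) (e (.inr w))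
        (fun h => Sum.inl_ne_inr (e.injective h)) (by omega)
      rw [RENUM_alt_map, RENUM_alt_map, ← he, RENUM_alt_even, RENUM_alt_even] at h4
      exact h4)
  unfold TR TJ
  constructor
  · intro hu
    rw [RENUM_ev, ← hφ, hu, map_one]
  · intro hu
    have h4 := hψ (u.map (fun x => (e.symm x.1, x.2)))
    rw [hu, map_one, RENUM_ev] at h4
    simp only [Equiv.apply_symm_apply] at h4
    exact h4.symm

end Pool.Agent.H48R2.EB
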